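import Pool.Agent.Lib.helper10.Sig2

namespace Pool.Agent.Results.MP_fae5c8_lc.NPHard

open Pool.Agent.Cx Pool.Agent.Sig

theorem result : NPHard (Lang fun z : Inst => Valid z ∧ z.2.length ≤ 5 * z.1 ∧ Load z) :=
  (hard_load _ fun _ h g => by simp [h, g]).npHard

end Pool.Agent.Results.MP_fae5c8_lc.NPHard
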